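import Pool.Agent.MWF.Stmts

/-!
# MWF, row BND: two element right zero and left zero bands are trivial
-/

namespace Pool.Agent.MWF.H13

open Pool.Agent.Helper14_MV Pool.Agent.Helper2_MV Pool.Agent.MWF

/-- a homomorphism which maps the letters into a submonoid maps all words into it -/
theorem val_mem {M : Type} [Monoid M] (S : Submonoid M) (φ : Word →* M)
    (h : ∀ i, φ (FreeMonoid.of i) ∈ S) (w : Word) : φ w ∈ S := by
  induction w using FreeMonoid.inductionOn' with
  | one => rw [map_one]; exact S.one_mem
  | of_mul a w ih => rw [map_mul]; exact S.mul_mem (h a) ih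

/-- the fully invariant congruence of the words which agree under all substitutions of the letters
by elements of a submonoid -/
def thS {M : Type} [Monoid M] (S : Submonoid M) : FIC where
  r := fun u v => ∀ φ : Word →* M, (∀ i, φ (FreeMonoid.of i) ∈ S) → φ u = φ v
  refl := fun _ _ _ => rfl
  symm := fun h φ hφ => (h φ hφ).symm
  trans := fun h k φ hφ => (h φ hφ).trans (k φ hφ)
  mul := fun h k φ hφ => by rw [map_mul, map_mul, h φ hφ, k φ hφ]
  sub := fun ψ _ _ h φ hφ => h (φ.comp ψ) (fun i => val_mem S φ hφ (ψ (FreeMonoid.of i)))

theorem pow_two_le {β : FIC} (hA : Ap β) : ∀ n : ℕ, 1 ≤ n → β.r (lx ^ (n + 1)) (lx ^ 2) := by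
  intro n hn
  induction n, hn using Nat.le_induction with
  | base => exact β.refl _
  | succ m _ ih =>
    have h1 : β.r (lx ^ (m + 1) * lx) (lx ^ 2 * lx) := β.mul ih (β.refl lx)
    have h2 : β.r (lx ^ 2 * lx) (lx ^ 2) := β.symm hA.sq
    rw [pow_succ]
    exact β.trans h1 h2

theorem not_cr {β : FIC} (hA : Ap β) : ∀ n : ℕ, 1 ≤ n → ¬ β.r (lx ^ (n + 1)) lx := by
  intro n hn h
  exact hA.ncr (β.trans (β.symm h) (pow_two_le hA n hn))

theorem comm_band {β : FIC} (h : ModF β) (hA : Ap β) (S : Submonoid β.con.Quotient)
    (hS : ∀ s ∈ S, s * s = s) {g k : β.con.Quotient} (hg : g ∈ S) (hk : k ∈ S) :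
    g * k = k * g := by
  have hle : β ≤ thS S := by
    intro u v huv φ _
    exact quot_sat β huv φ
  have h1 : (thS S).r (lx ^ (1 + 1)) lx := by
    intro φ hφ
    rw [pow_succ, pow_one, map_mul]
    exact hS _ (hφ 0)
  have h2 := Helper14_MV.B1 β h (not_cr hA) (thS S) hle 1 le_rfl h1
    (FreeMonoid.lift (fun i => if i = 0 then g else k)) (fun i => by
      rw [FreeMonoid.lift_eval_of]
      split
      · exact hg
      · exact hk)
  rw [map_mul, map_mul] at h2
  exact h2

theorem bnd : BndStmt := by
  intro β h hA g k hg hk
  constructor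
  · intro h1 h2
    let S : Submonoid β.con.Quotient :=
      { carrier := {1, g, k}
        one_mem' := Or.inl rfl
        mul_mem' := by
          intro a b ha hb
          rcases ha with ha | ha | ha <;> rcases hb with hb | hb | hb <;> subst ha <;> subst hb
          · exact Or.inl (one_mul _)
          · exact Or.inr (Or.inl (one_mul _))
          · exact Or.inr (Or.inr (one_mul _))
          · exact Or.inr (Or.inl (mul_one _))
          · exact Or.inr (Or.inl hg)
          · exact Or.inr (Or.inr h1)
          · exact Or.inr (Or.inr (mul_one _))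
          · exact Or.inr (Or.inl h2)
          · exact Or.inr (Or.inr hk) }
    have h3 : g * k = k * g := by
      refine comm_band h hA S ?_ (Or.inr (Or.inl rfl)) (Or.inr (Or.inr rfl))
      intro s hs
      rcases hs with hs | hs | hs <;> subst hs
      · exact one_mul _
      · exact hg
      · exact hk
    rw [h1, h2] at h3
    exact h3
  · intro h1 h2
    let S : Submonoid β.con.Quotient :=
      { carrier := {1, g, k}
        one_mem' := Or.inl rfl
        mul_mem' := by
          intro a b ha hb
          rcases ha with ha | ha | ha <;> rcases hb with hb | hb | hb <;> subst ha <;> subst hb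
          · exact Or.inl (one_mul _)
          · exact Or.inr (Or.inl (one_mul _))
          · exact Or.inr (Or.inr (one_mul _))
          · exact Or.inr (Or.inl (mul_one _))
          · exact Or.inr (Or.inl hg)
          · exact Or.inr (Or.inl h2)
          · exact Or.inr (Or.inr (mul_one _))
          · exact Or.inr (Or.inr h1)
          · exact Or.inr (Or.inr hk) }
    have h3 : g * k = k * g := by
      refine comm_band h hA S ?_ (Or.inr (Or.inl rfl)) (Or.inr (Or.inr rfl))
      intro s hs
      rcases hs with hs | hs | hs <;> subst hs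
      · exact one_mul _
      · exact hg
      · exact hk
    rw [h1, h2] at h3
    exact h3.symm

end Pool.Agent.MWF.H13
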